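import Pool.Agent.helper18.DQ.Inst

/-!
# The adversary
-/

namespace Pool.Agent.helper18.DQ

open Finset Pool.Agent.helper36.DL
open Pool.Agent.helper36.DL2 (levels tgt tgt_relevant)
open Pool.Agent.helper36.DL4 (IsAltDecisionList tgt_isAlt)

variable {n : ℕ}

/-- `J` mistakes can be forced from every set of at least `c` candidates -/
def Forces (vr : (ℕ × ℕ) × ℕ → Fin n) (L m N : ℕ) (A : Learner n) (J c : ℕ) : Prop :=
  ∀ (C : Finset ℕ) (h : List (Cube n × Bool)), C ⊆ range N → c ≤ C.card →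
    ∃ a ∈ C, ∃ xs, J ≤ mistakes A (tgt (fun j => vr (j, a)) L m) h xs

theorem forces_zero (vr : (ℕ × ℕ) × ℕ → Fin n) (L m N : ℕ) (A : Learner n) :
    Forces vr L m N A 0 1 := by
  intro C h _ hc
  obtain ⟨a, ha⟩ := Finset.card_pos.1 (by omega : 0 < C.card)
  exact ⟨a, ha, [], Nat.zero_le _⟩

theorem Forces.mono {vr : (ℕ × ℕ) × ℕ → Fin n} {L m N : ℕ} {A : Learner n} {J c c' : ℕ}
    (h : Forces vr L m N A J c) (hc : c ≤ c') : Forces vr L m N A J c' :=
  fun C hh hC hcard => h C hh hC (hc.trans hcard)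

theorem forces_succ {D M s L m N : ℕ} (hL : 1 ≤ L) {vr : (ℕ × ℕ) × ℕ → Fin n}
    (hvr : Set.InjOn vr (levels m L ×ˢ range N : Finset ((ℕ × ℕ) × ℕ))) (A : Learner n)
    (hA : ∀ h, IsLocalCombination D M s (A h)) {J c v : ℕ} (hc : Forces vr L m N A J c)
    (hs : c + exc D M s L m v ≤ v) : Forces vr L m N A (J + 1) v := by
  intro C h hC hcard
  obtain ⟨C', hC'C, hC'⟩ := Finset.exists_subset_card_eq hcard
  obtain ⟨x, b', hxb, hsmall⟩ := step hL hvr (hC'C.trans hC) (A h) (hA h)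
  rw [hC'] at hsmall
  set C'' := C'.filter fun a => tgt (fun j => vr (j, a)) L m x = b' with hC''
  have h3 : C''.card + (C'.filter fun a => tgt (fun j => vr (j, a)) L m x ≠ b').card
      = C'.card := Finset.card_filter_add_card_filter_not _
  obtain ⟨a, ha, xs, hxs⟩ := hc C'' (h ++ [(x, b')])
    ((Finset.filter_subset _ _).trans (hC'C.trans hC)) (by omega)
  rw [hC'', Finset.mem_filter] at ha
  refine ⟨a, hC'C ha.1, x :: xs, ?_⟩
  rw [mistakes, ha.2, if_neg hxb]
  omega

theorem exc_mono {D M s L m v v' : ℕ} (h : v ≤ v') : exc D M s L m v ≤ exc D M s L m v' :=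
  Nat.add_le_add_left (Nat.div_le_div_right h) _

/-- the first bound -/
theorem forces_lin {D M s L m N : ℕ} (hL : 1 ≤ L) {vr : (ℕ × ℕ) × ℕ → Fin n}
    (hvr : Set.InjOn vr (levels m L ×ˢ range N : Finset ((ℕ × ℕ) × ℕ))) (A : Learner n)
    (hA : ∀ h, IsLocalCombination D M s (A h)) {c0 J0 v : ℕ} (h0 : Forces vr L m N A J0 c0) (J : ℕ) :
    c0 + J * exc D M s L m v ≤ v → Forces vr L m N A (J0 + J) (c0 + J * exc D M s L m v) := by
  induction J with
  | zero => intro _; rw [zero_mul, add_zero, add_zero]; exact h0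
  | succ J ih =>
    intro h
    have h1 : c0 + (J + 1) * exc D M s L m v = c0 + J * exc D M s L m v + exc D M s L m v := by ring
    refine forces_succ hL hvr A hA (ih (by omega)) ?_
    rw [h1]
    exact Nat.add_le_add_left (exc_mono (by omega)) _

theorem forces_small {D M s L m N : ℕ} (hL : 1 ≤ L) {vr : (ℕ × ℕ) × ℕ → Fin n}
    (hvr : Set.InjOn vr (levels m L ×ˢ range N : Finset ((ℕ × ℕ) × ℕ))) (A : Learner n)
    (hA : ∀ h, IsLocalCombination D M s (A h)) {v : ℕ} (hv : 1 ≤ v) :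
    Forces vr L m N A ((v - 1) / exc D M s L m v) v := by
  have h1 := forces_lin hL hvr A hA (v := v) (forces_zero vr L m N A) ((v - 1) / exc D M s L m v) (by
    have := Nat.div_mul_le_self (v - 1) (exc D M s L m v)
    omega)
  rw [zero_add] at h1
  refine h1.mono ?_
  have := Nat.div_mul_le_self (v - 1) (exc D M s L m v)
  omega

theorem forces_big {D M s L m N : ℕ} (hL : 1 ≤ L) {vr : (ℕ × ℕ) × ℕ → Fin n}
    (hvr : Set.InjOn vr (levels m L ×ˢ range N : Finset ((ℕ × ℕ) × ℕ))) (A : Learner n)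
    (hA : ∀ h, IsLocalCombination D M s (A h)) (a : ℕ) :
    Forces vr L m N A ((pp L m - 1) / 2 + a * (pp L m / 3))
      (pp L m * ((D * M + 1) * (D + 1) + s) * 2 ^ a) := by
  set P := pp L m with hP
  set K := (D * M + 1) * (D + 1) + s with hK
  have hP1 : 1 ≤ P := pp_pos hL m
  have hK1 : 1 ≤ K := by
    have : 0 < (D * M + 1) * (D + 1) := Nat.mul_pos (Nat.succ_pos _) (Nat.succ_pos _)
    omega
  have hexc : ∀ b, exc D M s L m (P * K * b) = K + K * b := by
    intro b
    rw [exc, ← hP, ← hK, mul_assoc, Nat.mul_div_cancel_left _ hP1]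
  induction a with
  | zero =>
    rw [pow_zero, mul_one, zero_mul, add_zero]
    have h1 : 1 ≤ P * K := Nat.mul_pos hP1 hK1
    have h2 := forces_lin hL hvr A hA (v := P * K) (forces_zero vr L m N A) ((P - 1) / 2) (by
      have h3 := hexc 1
      rw [mul_one, mul_one] at h3
      rw [h3]
      have h4 : (P - 1) / 2 * 2 ≤ P - 1 := Nat.div_mul_le_self _ _
      have h5 : (P - 1) / 2 * (K + K) ≤ (P - 1) * K := by
        calc (P - 1) / 2 * (K + K) = ((P - 1) / 2 * 2) * K := by ring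
          _ ≤ (P - 1) * K := Nat.mul_le_mul_right _ h4
      have h6 : (P - 1) * K + K = P * K := by
        rw [← Nat.succ_mul]
        congr 1
        omega
      omega)
    rw [zero_add] at h2
    refine h2.mono ?_
    have h3 := hexc 1
    rw [mul_one, mul_one] at h3
    rw [h3]
    have h4 : (P - 1) / 2 * 2 ≤ P - 1 := Nat.div_mul_le_self _ _
    have h5 : (P - 1) / 2 * (K + K) ≤ (P - 1) * K := by
      calc (P - 1) / 2 * (K + K) = ((P - 1) / 2 * 2) * K := by ring
        _ ≤ (P - 1) * K := Nat.mul_le_mul_right _ h4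
    have h6 : (P - 1) * K + K = P * K := by
      rw [← Nat.succ_mul]
      congr 1
      omega
    omega
  | succ a ih =>
    have h1 : P * K * 2 ^ a + P / 3 * exc D M s L m (P * K * 2 ^ (a + 1)) ≤ P * K * 2 ^ (a + 1) := by
      rw [hexc]
      have h2 : P / 3 * 3 ≤ P := Nat.div_mul_le_self _ _
      have h3 : 1 ≤ 2 ^ a := Nat.one_le_two_pow
      calc P * K * 2 ^ a + P / 3 * (K + K * 2 ^ (a + 1))
          ≤ P * K * 2 ^ a + P / 3 * (K * 2 ^ a + K * 2 ^ (a + 1)) :=
            Nat.add_le_add_left (Nat.mul_le_mul_left _ (Nat.add_le_add_right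
              (Nat.le_mul_of_pos_right _ h3) _)) _
        _ = P * K * 2 ^ a + (P / 3 * 3) * (K * 2 ^ a) := by rw [pow_succ]; ring
        _ ≤ P * K * 2 ^ a + P * (K * 2 ^ a) := Nat.add_le_add_left (Nat.mul_le_mul_right _ h2) _
        _ = P * K * 2 ^ (a + 1) := by rw [pow_succ]; ring
    have h4 := (forces_lin hL hvr A hA (v := P * K * 2 ^ (a + 1)) ih (P / 3) h1).mono h1
    have h5 : (P - 1) / 2 + a * (P / 3) + P / 3 = (P - 1) / 2 + (a + 1) * (P / 3) := by ring
    rw [h5] at h4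
    exact h4

/-- an injective map on a finite set -/
theorem exists_injOn {β : Type*} (U : Finset β) (hn : 1 ≤ n) (hU : U.card ≤ n) :
    ∃ f : β → Fin n, Set.InjOn f U := by
  classical
  refine ⟨fun b => if hb : b ∈ U then Fin.castLE hU (U.equivFin ⟨b, hb⟩) else ⟨0, hn⟩, ?_⟩
  intro a ha b hb hab
  have ha' : a ∈ U := ha
  have hb' : b ∈ U := hb
  simp only [dif_pos ha', dif_pos hb'] at hab
  have h1 := (Fin.castLE_injective hU) hab
  have h2 := U.equivFin.injective h1
  exact congrArg Subtype.val h2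

/-- from forcing to the target -/
theorem of_forces {L m N J : ℕ} (hL : 1 ≤ L) (hm : 1 ≤ m) (hN : 1 ≤ N) (hn : m * L * N ≤ n)
    (A : Learner n)
    (h : ∀ vr : (ℕ × ℕ) × ℕ → Fin n,
      Set.InjOn vr (levels m L ×ˢ range N : Finset ((ℕ × ℕ) × ℕ)) → Forces vr L m N A J N) :
    ∃ c : Cube n → Bool, IsAltDecisionList m c ∧ (relevant c).ncard ≤ m * L ∧
      ∃ xs, J ≤ mistakes A c [] xs := by
  obtain ⟨vr, hvr⟩ := exists_injOn (n := n) (levels m L ×ˢ range N)
    ((Nat.mul_pos (Nat.mul_pos hm hL) hN).trans_le hn) (by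
      rw [Finset.card_product, levels, Finset.card_product, Finset.card_range, Finset.card_range,
        Finset.card_range]
      exact hn)
  obtain ⟨a, _, xs, hxs⟩ := h vr hvr (range N) [] subset_rfl (by rw [Finset.card_range])
  exact ⟨_, tgt_isAlt _ _ _, tgt_relevant _ _ _, xs, hxs⟩

/-- **combinations of halfspaces**, first bound -/
theorem comb_learner (D M s L m v n : ℕ) (hL : 1 ≤ L) (hm : 1 ≤ m) (hv : 1 ≤ v)
    (hn : m * L * v ≤ n) (A : Learner n) (hA : ∀ h, IsLocalCombination D M s (A h)) :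
    ∃ c : Cube n → Bool, IsAltDecisionList m c ∧ (relevant c).ncard ≤ m * L ∧
      ∃ xs, (v - 1) / ((D * M + 1) * (D + 1) + s + v / pp L m) ≤ mistakes A c [] xs :=
  of_forces hL hm hv hn A fun _ hvr => forces_small hL hvr A hA hv

/-- **combinations of halfspaces**, second bound -/
theorem comb_learner_log (D M s L m a n : ℕ) (hL : 1 ≤ L) (hm : 1 ≤ m)
    (hn : m * L * (pp L m * ((D * M + 1) * (D + 1) + s) * 2 ^ a) ≤ n) (A : Learner n)
    (hA : ∀ h, IsLocalCombination D M s (A h)) :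
    ∃ c : Cube n → Bool, IsAltDecisionList m c ∧ (relevant c).ncard ≤ m * L ∧
      ∃ xs, (pp L m - 1) / 2 + a * (pp L m / 3) ≤ mistakes A c [] xs := by
  have hP1 : 1 ≤ pp L m := pp_pos hL m
  have hK1 : 1 ≤ (D * M + 1) * (D + 1) + s := by
    have : 0 < (D * M + 1) * (D + 1) := Nat.mul_pos (Nat.succ_pos _) (Nat.succ_pos _)
    omega
  exact of_forces hL hm (N := pp L m * ((D * M + 1) * (D + 1) + s) * 2 ^ a)
    (Nat.mul_pos (Nat.mul_pos hP1 hK1) (by positivity)) hn A fun _ hvr => forces_big hL hvr A hA a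

end Pool.Agent.helper18.DQ
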