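import Mathlib

/-!
# Selection of the largest elements for several weights
-/

namespace Pool.Agent.helper18.DQ

open Finset

/-- the `s` largest elements -/
theorem exists_top {κ : Type*} [DecidableEq κ] (R : Finset κ) (ρ : κ → ℝ) (s : ℕ)
    (hs : s ≤ R.card) :
    ∃ S ⊆ R, S.card = s ∧ ∀ c ∈ S, ∀ c' ∈ R, c' ∉ S → ρ c' ≤ ρ c := by
  induction s with
  | zero => exact ⟨∅, Finset.empty_subset _, rfl, fun c hc => absurd hc (Finset.notMem_empty _)⟩
  | succ s ih =>
    obtain ⟨S, hSR, hS, htop⟩ := ih (by omega)
    have h1 : (R \ S).Nonempty := by
      rw [← Finset.card_pos, Finset.card_sdiff_of_subset hSR]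
      omega
    obtain ⟨x, hx, hmax⟩ := Finset.exists_max_image (R \ S) ρ h1
    rw [Finset.mem_sdiff] at hx
    refine ⟨insert x S, Finset.insert_subset hx.1 hSR, ?_, ?_⟩
    · rw [Finset.card_insert_of_notMem hx.2, hS]
    · intro c hc c' hc' hc'S
      rw [Finset.mem_insert, not_or] at hc'S
      rw [Finset.mem_insert] at hc
      rcases hc with rfl | hc
      · exact hmax c' (Finset.mem_sdiff.2 ⟨hc', hc'S.2⟩)
      · exact htop c hc c' hc' hc'S.2

/-- Disjoint sets of `s` elements for the tags `t ∈ T`, whose `ρ t` is at least that of all
untagged elements. -/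
theorem exists_tags {κ τ : Type*} [DecidableEq κ] [DecidableEq τ] (C : Finset κ)
    (ρ : τ → κ → ℝ) (s : ℕ) (T : Finset τ) : T.card * s ≤ C.card →
    ∃ ad : κ → Option τ, (∀ c t, ad c = some t → t ∈ T) ∧
      (∀ t ∈ T, (C.filter fun c => ad c = some t).card = s) ∧
      (∀ t ∈ T, ∀ c ∈ C, ad c = some t → ∀ c' ∈ C, ad c' = none → ρ t c' ≤ ρ t c) := by
  induction T using Finset.induction_on with
  | empty =>
    intro _
    exact ⟨fun _ => none, fun c t h => by simp at h, fun t ht => absurd ht (Finset.notMem_empty _),
      fun t ht => absurd ht (Finset.notMem_empty _)⟩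
  | insert t T htT ih =>
    intro hcard
    rw [Finset.card_insert_of_notMem htT, add_mul, one_mul] at hcard
    obtain ⟨ad, h1, h2, h3⟩ := ih (by omega)
    set R := C.filter fun c => ad c = none with hR
    have hRcard : C.card = T.card * s + R.card := by
      have h4 : C.card = ∑ o ∈ insert none (T.image some),
          (C.filter fun c => ad c = o).card := by
        refine Finset.card_eq_sum_card_fiberwise fun c hc => ?_
        rw [Finset.mem_coe, Finset.mem_insert, Finset.mem_image]
        rcases h : ad c with _ | t'
        · exact Or.inl rfl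
        · exact Or.inr ⟨t', h1 c t' h, rfl⟩
      rw [Finset.sum_insert (by simp), Finset.sum_image (by simp), Finset.sum_congr rfl h2,
        Finset.sum_const, smul_eq_mul] at h4
      rw [h4, add_comm]
    obtain ⟨S, hSR, hS, htop⟩ := exists_top R (ρ t) s (by omega)
    have hSad : ∀ c ∈ S, c ∈ C ∧ ad c = none := fun c hc => Finset.mem_filter.1 (hSR hc)
    refine ⟨fun c => if c ∈ S then some t else ad c, ?_, ?_, ?_⟩
    · intro c t' h
      by_cases hc : c ∈ S
      · simp only [hc, if_true, Option.some.injEq] at h
        rw [← h]
        exact Finset.mem_insert_self _ _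
      · simp only [hc, if_false] at h
        exact Finset.mem_insert_of_mem (h1 c t' h)
    · intro t' ht'
      rw [Finset.mem_insert] at ht'
      rcases ht' with rfl | ht'
      · rw [← hS]
        congr 1
        ext c
        rw [Finset.mem_filter]
        constructor
        · rintro ⟨hc, h⟩
          by_contra hcS
          simp only [hcS, if_false] at h
          exact htT (h1 c _ h)
        · intro hc
          exact ⟨(hSad c hc).1, by simp only [hc, if_true]⟩
      · rw [← h2 t' ht']
        congr 1
        refine Finset.filter_congr fun c hc => ?_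
        by_cases hcS : c ∈ S
        · simp only [hcS, if_true, Option.some.injEq, (hSad c hcS).2]
          constructor
          · rintro rfl
            exact absurd ht' htT
          · intro h
            exact absurd h (by simp)
        · simp only [hcS, if_false]
    · intro t' ht' c hc hct c' hc' hc't
      have hc'S : c' ∉ S := fun h => by simp [h] at hc't
      simp only [hc'S, if_false] at hc't
      by_cases hcS : c ∈ S
      · simp only [hcS, if_true, Option.some.injEq] at hct
        subst hct
        exact htop c hcS c' (Finset.mem_filter.2 ⟨hc', hc't⟩) hc'S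
      · simp only [hcS, if_false] at hct
        exact h3 t' (h1 c t' hct) c hc hct c' hc' hc't

end Pool.Agent.helper18.DQ
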