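import Pool.Agent.helper18.DQ.SF
import Pool.Agent.helper18.DQ.Sel

/-!
# Two instances which are not distinguished by `q` thresholds
-/

namespace Pool.Agent.helper18.DQ

open Finset

/-- comparison of sums -/
theorem sum_le_of_le {α β : Type*} (F : Finset α) (G : Finset β) (x : α → ℝ) (y : β → ℝ)
    (hcard : F.card ≤ G.card) (hy : ∀ c ∈ G, 0 ≤ y c) (h : ∀ i ∈ F, ∀ c ∈ G, x i ≤ y c) :
    ∑ i ∈ F, x i ≤ ∑ c ∈ G, y c := by
  rcases G.eq_empty_or_nonempty with hG | hG
  · rw [hG, Finset.card_empty, Nat.le_zero, Finset.card_eq_zero] at hcard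
    rw [hcard, hG, Finset.sum_empty, Finset.sum_empty]
  · obtain ⟨g, hg, hmin⟩ := Finset.exists_min_image G y hG
    have h1 : ∑ i ∈ F, x i ≤ F.card • y g := Finset.sum_le_card_nsmul _ _ _ fun i hi => h i hi g hg
    have h2 : G.card • y g ≤ ∑ c ∈ G, y c := Finset.card_nsmul_le_sum _ _ _ fun c hc => hmin c hc
    have h3 : F.card • y g ≤ G.card • y g := nsmul_le_nsmul_left (hy g hg) hcard
    exact h1.trans (h3.trans h2)

/-- a choice avoiding `M` small sets -/
theorem exists_avoid (D M : ℕ) (d : Fin M → Fin D) (Bad : Fin M → (Fin D → Fin (M + 1)) → Prop)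
    (h : ∀ i α α', (∀ j, j ≠ d i → α j = α' j) → Bad i α → Bad i α' → α (d i) = α' (d i)) :
    ∃ α, ∀ i, ¬ Bad i α := by
  classical
  by_contra hcon
  push Not at hcon
  have h1 : ∀ i : Fin M, (univ.filter fun α => Bad i α).card ≤ (M + 1) ^ (D - 1) := by
    intro i
    have h2 : Fintype.card ({j : Fin D // j ≠ d i} → Fin (M + 1)) = (M + 1) ^ (D - 1) := by
      rw [Fintype.card_fun, Fintype.card_fin, Fintype.card_subtype_compl, Fintype.card_fin]
      simp
    rw [← h2, ← Finset.card_univ]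
    refine Finset.card_le_card_of_injOn (fun α j => α j.1) (fun _ _ => Finset.mem_univ _) ?_
    intro α hα α' hα' he
    rw [Finset.mem_coe, Finset.mem_filter] at hα hα'
    have h3 : ∀ j, j ≠ d i → α j = α' j := fun j hj => congrFun he ⟨j, hj⟩
    funext j
    by_cases hj : j = d i
    · rw [hj]
      exact h i α α' h3 hα.2 hα'.2
    · exact h3 j hj
  have h4 : (univ : Finset (Fin D → Fin (M + 1))) ⊆
      univ.biUnion fun i => univ.filter fun α => Bad i α := by
    intro α _
    obtain ⟨k, hk⟩ := hcon α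
    exact Finset.mem_biUnion.2 ⟨k, Finset.mem_univ _, Finset.mem_filter.2 ⟨Finset.mem_univ _, hk⟩⟩
  have h5 := (Finset.card_le_card h4).trans Finset.card_biUnion_le
  have h6 : ∑ i : Fin M, (univ.filter fun α => Bad i α).card ≤ M * (M + 1) ^ (D - 1) := by
    refine (Finset.sum_le_sum fun k _ => h1 k).trans ?_
    rw [Finset.sum_const, Finset.card_univ, Fintype.card_fin, smul_eq_mul]
  rw [Finset.card_univ, Fintype.card_fun, Fintype.card_fin, Fintype.card_fin] at h5
  rcases Nat.eq_zero_or_pos M with hM | hM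
  · subst hM
    simp at h5
  · have hD : 1 ≤ D := by
      have := (d ⟨0, hM⟩).2
      omega
    have h7 : (M + 1) ^ D = (M + 1) ^ (D - 1) * (M + 1) := by
      rw [← pow_succ]
      congr 1
      omega
    have h8 : 0 < (M + 1) ^ (D - 1) := by positivity
    nlinarith

/-- the pattern of the candidate `c` -/
def zz {κ Y : Type*} {q M : ℕ} (ad : κ → Option (Fin q × Fin M)) (mx mn : Fin q → κ → Y)
    (base : κ → Y) (α : Fin q → Fin (M + 1)) (c : κ) : Y :=
  match ad c with
  | some t => if t.2.1 < (α t.1).1 then mx t.1 c else mn t.1 c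
  | none => base c

theorem zz_some {κ Y : Type*} {q M : ℕ} {ad : κ → Option (Fin q × Fin M)} {mx mn : Fin q → κ → Y}
    {base : κ → Y} {α : Fin q → Fin (M + 1)} {c : κ} {t : Fin q × Fin M} (h : ad c = some t) :
    zz ad mx mn base α c = if t.2.1 < (α t.1).1 then mx t.1 c else mn t.1 c := by
  simp only [zz, h]

theorem zz_none {κ Y : Type*} {q M : ℕ} {ad : κ → Option (Fin q × Fin M)} {mx mn : Fin q → κ → Y}
    {base : κ → Y} {α : Fin q → Fin (M + 1)} {c : κ} (h : ad c = none) :
    zz ad mx mn base α c = base c := by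
  simp only [zz, h]

/-- the increment -/
theorem incr {κ Y : Type*} {q M : ℕ} (C : Finset κ) (ad : κ → Option (Fin q × Fin M))
    (mx mn : Fin q → κ → Y) (base : κ → Y) (l : κ → Y → ℝ) (ρ : κ → ℝ) (k : Fin q)
    (hρ : ∀ c, 0 ≤ ρ c) (hmm : ∀ c, l c (mx k c) - l c (mn k c) = ρ c)
    (α α' : Fin q → Fin (M + 1)) (hoff : ∀ j, j ≠ k → α j = α' j) (hlt : (α k).1 < (α' k).1)
    (u : Fin M) (hu : u.1 = (α k).1) :
    ∑ c ∈ C.filter (fun c => ad c = some (k, u)), ρ c
      ≤ ∑ c ∈ C, l c (zz ad mx mn base α' c) - ∑ c ∈ C, l c (zz ad mx mn base α c) := by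
  classical
  rw [Finset.sum_filter, ← Finset.sum_sub_distrib]
  refine Finset.sum_le_sum fun c _ => ?_
  rcases h : ad c with _ | t
  · rw [if_neg (by simp), zz_none h, zz_none h, sub_self]
  · rw [zz_some h, zz_some h]
    by_cases hk : t.1 = k
    · obtain ⟨t1, t2⟩ := t
      simp only at hk
      subst hk
      simp only
      by_cases h2 : t2 = u
      · subst h2
        rw [if_pos rfl, if_pos (by omega), if_neg (by omega), hmm]
      · rw [if_neg (by simpa using h2)]
        by_cases h3 : t2.1 < (α t1).1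
        · rw [if_pos (by omega), if_pos h3, sub_self]
        · rw [if_neg h3]
          by_cases h4 : t2.1 < (α' t1).1
          · rw [if_pos h4, hmm]
            exact hρ c
          · rw [if_neg h4, sub_self]
    · rw [if_neg, hoff t.1 hk, sub_self]
      intro h5
      rw [Option.some.injEq] at h5
      exact hk (by rw [h5])

/-- rounding: all but `q + 1` of the elements of `R` get the patterns `a l` and `b l` -/
theorem rounding {κ Y : Type*} [DecidableEq κ] {q P : ℕ} (hP : 0 < P) (R : Finset κ)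
    (l : Fin q → κ → Y → ℝ) (ρ : Fin q → κ → ℝ) (ok : Y → Prop)
    (hρ : ∀ k c y y', ok y → ok y' → |l k c y - l k c y'| ≤ ρ k c) (a b : Fin P → Y)
    (ha : ∀ i, ok (a i)) (hb : ∀ i, ok (b i)) (hab : ∀ k c, ∑ i, l k c (a i) = ∑ i, l k c (b i))
    (e : Fin P → ℝ) (he0 : ∀ i, 0 ≤ e i) (he1 : ∑ i, e i = 1) :
    ∃ F ⊆ R, F.card ≤ q + 1 ∧ ∃ L : κ → Fin P,
      (∀ k, |∑ c ∈ R \ F, (l k c (a (L c)) - l k c (b (L c)))| ≤ ∑ c ∈ F, ρ k c) ∧
      ∑ c ∈ R \ F, e (L c) ≤ R.card / P := by
  classical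
  set f : R → Fin P → Fin (q + 1) → ℝ := fun c i k =>
    if h : k.1 < q then l ⟨k.1, h⟩ c (a i) - l ⟨k.1, h⟩ c (b i) else e i with hf
  have hP' : (0 : ℝ) < P := by exact_mod_cast hP
  obtain ⟨mu, h0, h1, h2, h3⟩ := shapleyFolkman f (fun _ => (1 : ℝ) / P)
    (fun _ => by positivity) (fun _ => by
      rw [Finset.sum_const, Finset.card_univ, Fintype.card_fin, nsmul_eq_mul]
      field_simp)
  set F0 := univ.filter fun c : R => ¬ ∃ i, ∀ i', i' ≠ i → mu (c, i') = 0 with hF0
  have hL : ∀ c : R, ∃ i : Fin P, c ∉ F0 → ∀ i', i' ≠ i → mu (c, i') = 0 := by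
    intro c
    by_cases hc : ∃ i, ∀ i', i' ≠ i → mu (c, i') = 0
    · obtain ⟨i, hi⟩ := hc
      exact ⟨i, fun _ => hi⟩
    · exact ⟨⟨0, hP⟩, fun h => absurd (by rw [hF0, Finset.mem_filter]; exact ⟨Finset.mem_univ _, hc⟩) h⟩
  choose L0 hL0 using hL
  have hmu1 : ∀ c : R, c ∉ F0 → mu (c, L0 c) = 1 := by
    intro c hc
    rw [← h1 c]
    exact (Finset.sum_eq_single (L0 c) (fun i _ hi => hL0 c hc i hi)
      (fun h => absurd (Finset.mem_univ _) h)).symm
  have hval : ∀ c : R, c ∉ F0 → ∀ k, ∑ i, mu (c, i) * f c i k = f c (L0 c) k := by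
    intro c hc k
    rw [Finset.sum_eq_single (L0 c) (fun i _ hi => by rw [hL0 c hc i hi, zero_mul])
      (fun h => absurd (Finset.mem_univ _) h), hmu1 c hc, one_mul]
  have hsplit : ∀ k, ∑ c : R, ∑ i, mu (c, i) * f c i k
      = ∑ c ∈ univ \ F0, f c (L0 c) k + ∑ c ∈ F0, ∑ i, mu (c, i) * f c i k := by
    intro k
    rw [← Finset.sum_sdiff (Finset.subset_univ F0)]
    congr 1
    exact Finset.sum_congr rfl fun c hc => hval c (Finset.mem_sdiff.1 hc).2 k
  -- transfer to `κ`
  set F : Finset κ := F0.map (Function.Embedding.subtype _) with hF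
  have hFR : F ⊆ R := by
    intro c hc
    rw [hF, Finset.mem_map] at hc
    obtain ⟨c', _, rfl⟩ := hc
    exact c'.2
  have hsumF : ∀ g : κ → ℝ, ∑ c ∈ F, g c = ∑ c ∈ F0, g c.1 := by
    intro g
    rw [hF, Finset.sum_map]
    rfl
  have hsumR : ∀ g : κ → ℝ, ∑ c ∈ R \ F, g c = ∑ c ∈ univ \ F0, g c.1 := by
    intro g
    have h4 : R \ F = (univ \ F0).map (Function.Embedding.subtype _) := by
      ext c
      rw [Finset.mem_sdiff, hF, Finset.mem_map, Finset.mem_map]
      constructor
      · rintro ⟨hc, hcF⟩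
        refine ⟨⟨c, hc⟩, Finset.mem_sdiff.2 ⟨Finset.mem_univ _, fun h => hcF ⟨⟨c, hc⟩, h, rfl⟩⟩, rfl⟩
      · rintro ⟨c', hc', rfl⟩
        refine ⟨c'.2, ?_⟩
        rintro ⟨c'', hc'', he⟩
        have : c'' = c' := Subtype.ext he
        rw [this] at hc''
        exact (Finset.mem_sdiff.1 hc').2 hc''
    rw [h4, Finset.sum_map]
    rfl
  refine ⟨F, hFR, by rw [hF, Finset.card_map]; convert h3,
    fun c => if h : c ∈ R then L0 ⟨c, h⟩ else ⟨0, hP⟩, fun k => ?_, ?_⟩
  · rw [hsumR, hsumF]
    have h5 := h2 k.castSucc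
    rw [hsplit] at h5
    have h6 : ∀ (c : R) i, f c i k.castSucc = l k c (a i) - l k c (b i) := by
      intro c i
      simp only [hf, Fin.val_castSucc, k.2, dif_pos, Fin.eta]
    have h7 : ∑ c : R, ∑ i, (1 : ℝ) / P * f c i k.castSucc = 0 := by
      refine Finset.sum_eq_zero fun c _ => ?_
      rw [← Finset.mul_sum]
      simp only [h6]
      rw [Finset.sum_sub_distrib, hab, sub_self, mul_zero]
    rw [h7] at h5
    have h8 : ∑ c ∈ univ \ F0, f c (L0 c) k.castSucc
        = - ∑ c ∈ F0, ∑ i, mu (c, i) * f c i k.castSucc := by linarith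
    have h9 : ∑ c ∈ univ \ F0, (l k c.1 (a (if h : c.1 ∈ R then L0 ⟨c.1, h⟩ else ⟨0, hP⟩))
        - l k c.1 (b (if h : c.1 ∈ R then L0 ⟨c.1, h⟩ else ⟨0, hP⟩)))
        = ∑ c ∈ univ \ F0, f c (L0 c) k.castSucc := by
      refine Finset.sum_congr rfl fun c _ => ?_
      rw [h6, dif_pos c.2]
    rw [h9, h8, abs_neg]
    refine (Finset.abs_sum_le_sum_abs _ _).trans (Finset.sum_le_sum fun c _ => ?_)
    refine (Finset.abs_sum_le_sum_abs _ _).trans ?_
    have h10 : ∀ i ∈ (univ : Finset (Fin P)), |mu (c, i) * f c i k.castSucc|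
        ≤ mu (c, i) * ρ k c := by
      intro i _
      rw [abs_mul, abs_of_nonneg (h0 _), h6]
      exact mul_le_mul_of_nonneg_left (hρ _ _ _ _ (ha i) (hb i)) (h0 _)
    refine (Finset.sum_le_sum h10).trans ?_
    rw [← Finset.sum_mul, h1, one_mul]
  · rw [hsumR]
    have h5 := h2 (Fin.last q)
    rw [hsplit] at h5
    have h6 : ∀ (c : R) i, f c i (Fin.last q) = e i := by
      intro c i
      simp only [hf, Fin.val_last, lt_irrefl, dif_neg, not_false_eq_true]
    simp only [h6] at h5
    have h7 : ∑ c : R, ∑ i, (1 : ℝ) / P * e i = R.card / P := by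
      rw [Finset.sum_congr rfl fun c _ => by rw [← Finset.mul_sum, he1]]
      rw [Finset.sum_const, Finset.card_univ, Fintype.card_coe, nsmul_eq_mul]
      ring
    rw [h7] at h5
    have h8 : 0 ≤ ∑ c ∈ F0, ∑ i, mu (c, i) * e i :=
      Finset.sum_nonneg fun c _ => Finset.sum_nonneg fun i _ => mul_nonneg (h0 _) (he0 i)
    have h9 : ∑ c ∈ univ \ F0, e (if h : c.1 ∈ R then L0 ⟨c.1, h⟩ else ⟨0, hP⟩)
        = ∑ c ∈ univ \ F0, e (L0 c) := by
      refine Finset.sum_congr rfl fun c _ => ?_
      rw [dif_pos c.2]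
    rw [h9]
    linarith

/-- **two instances** with the same values of `M` thresholds for `q` linear forms -/
theorem core {κ Y : Type*} [DecidableEq κ] {q M P : ℕ} (hP : 0 < P) (C : Finset κ)
    (l : Fin q → κ → Y → ℝ) (ρ : Fin q → κ → ℝ) (ok : Y → Prop)
    (hρ : ∀ k c y y', ok y → ok y' → |l k c y - l k c y'| ≤ ρ k c)
    (mx mn : Fin q → κ → Y) (hmx : ∀ k c, ok (mx k c)) (hmn : ∀ k c, ok (mn k c))
    (hmm : ∀ k c, l k c (mx k c) - l k c (mn k c) = ρ k c)
    (a b : Fin P → Y) (ha : ∀ i, ok (a i)) (hb : ∀ i, ok (b i))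
    (hab : ∀ k c, ∑ i, l k c (a i) = ∑ i, l k c (b i)) (y0 : Y) (hy0 : ok y0)
    (bad0 bad1 : Y → Prop) [DecidablePred bad0] [DecidablePred bad1]
    (he : ∑ i, ((if bad0 (a i) then (1 : ℝ) else 0) + (if bad1 (b i) then 1 else 0)) = 1)
    (d : Fin M → Fin q) (θ : Fin M → ℝ) :
    ∃ z0 z1 : κ → Y, (∀ c, ok (z0 c)) ∧ (∀ c, ok (z1 c)) ∧
      (∀ k, θ k < ∑ c ∈ C, l (d k) c (z0 c) ↔ θ k < ∑ c ∈ C, l (d k) c (z1 c)) ∧
      (C.filter fun c => bad0 (z0 c)).card ≤ (q * M + 1) * (q + 1) + C.card / P ∧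
      (C.filter fun c => bad1 (z1 c)).card ≤ (q * M + 1) * (q + 1) + C.card / P := by
  classical
  by_cases hC : q * M * (q + 1) ≤ C.card
  swap
  · have h1 : C.card ≤ (q * M + 1) * (q + 1) + C.card / P := by
      have h2 : (q * M + 1) * (q + 1) = q * M * (q + 1) + (q + 1) := by ring
      have h3 : C.card ≤ (q * M + 1) * (q + 1) := by omega
      exact h3.trans (Nat.le_add_right _ _)
    exact ⟨fun _ => y0, fun _ => y0, fun _ => hy0, fun _ => hy0, fun k => Iff.rfl,
      (Finset.card_filter_le _ _).trans h1, (Finset.card_filter_le _ _).trans h1⟩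
  obtain ⟨ad, -, had, htop⟩ := exists_tags C (fun t : Fin q × Fin M => ρ t.1) (q + 1) univ (by
    rw [Finset.card_univ, Fintype.card_prod, Fintype.card_fin, Fintype.card_fin]
    exact hC)
  set R := C.filter fun c => ad c = none with hR
  have hRC : R ⊆ C := Finset.filter_subset _ _
  have hρ0 : ∀ k c, 0 ≤ ρ k c := fun k c => (abs_nonneg _).trans (hρ k c y0 y0 hy0 hy0)
  obtain ⟨F, hFR, hFcard, L, hL1, hL2⟩ := rounding hP R l ρ ok hρ a b ha hb hab
    (fun i => (if bad0 (a i) then (1 : ℝ) else 0) + (if bad1 (b i) then 1 else 0))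
    (fun i => add_nonneg (by split_ifs <;> norm_num) (by split_ifs <;> norm_num)) he
  set base0 : κ → Y := fun c => if c ∈ R \ F then a (L c) else y0 with hbase0
  set base1 : κ → Y := fun c => if c ∈ R \ F then b (L c) else y0 with hbase1
  set p0 : (Fin q → Fin (M + 1)) → Fin q → ℝ :=
    fun α k => ∑ c ∈ C, l k c (zz ad mx mn base0 α c) with hp0
  set p1 : (Fin q → Fin (M + 1)) → Fin q → ℝ :=
    fun α k => ∑ c ∈ C, l k c (zz ad mx mn base1 α c) with hp1
  have hdiff : ∀ α k, p0 α k - p1 α k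
      = ∑ c ∈ R \ F, (l k c (a (L c)) - l k c (b (L c))) := by
    intro α k
    rw [hp0, hp1]
    simp only
    rw [← Finset.sum_sub_distrib, ← Finset.sum_sdiff (Finset.sdiff_subset.trans hRC : R \ F ⊆ C)]
    rw [Finset.sum_eq_zero (s := C \ (R \ F)), zero_add]
    · refine Finset.sum_congr rfl fun c hc => ?_
      have h1 : ad c = none := (Finset.mem_filter.1 (Finset.mem_sdiff.1 hc).1).2
      rw [zz_none h1, zz_none h1, hbase0, hbase1]
      simp only [if_pos hc]
    · intro c hc
      rw [Finset.mem_sdiff] at hc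
      rcases h : ad c with _ | t
      · rw [zz_none h, zz_none h, hbase0, hbase1]
        simp only [if_neg hc.2, sub_self]
      · rw [zz_some h, zz_some h, sub_self]
  have hincr : ∀ (base : κ → Y) (k : Fin q) (α α' : Fin q → Fin (M + 1)),
      (∀ j, j ≠ k → α j = α' j) → (α k).1 < (α' k).1 →
      ∑ c ∈ F, ρ k c ≤ ∑ c ∈ C, l k c (zz ad mx mn base α' c)
        - ∑ c ∈ C, l k c (zz ad mx mn base α c) := by
    intro base k α α' hoff hlt
    have hu : (α k).1 < M := by
      have := (α' k).2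
      omega
    refine le_trans ?_ (incr C ad mx mn base (l k) (ρ k) k (hρ0 k) (hmm k) α α' hoff hlt
      ⟨(α k).1, hu⟩ rfl)
    refine sum_le_of_le _ _ _ _ ?_ (fun c _ => hρ0 k c) ?_
    · rw [had (k, ⟨(α k).1, hu⟩) (Finset.mem_univ _)]
      exact hFcard
    · intro i hi c hc
      have h1 := Finset.mem_filter.1 (hFR hi)
      have h2 := Finset.mem_filter.1 hc
      exact htop (k, ⟨(α k).1, hu⟩) (Finset.mem_univ _) c h2.1 h2.2 i h1.1 h1.2
  obtain ⟨α, hα⟩ := exists_avoid q M d
    (fun i α => ¬ (θ i < p0 α (d i) ↔ θ i < p1 α (d i))) (by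
    intro i α α' hoff hb0 hb1
    set k := d i with hk
    have key : ∀ α α' : Fin q → Fin (M + 1), (∀ j, j ≠ k → α j = α' j) →
        ¬ (θ i < p0 α k ↔ θ i < p1 α k) → ¬ (θ i < p0 α' k ↔ θ i < p1 α' k) →
        ¬ (α k).1 < (α' k).1 := by
      intro α α' hoff hb0 hb1 hlt
      have h1 := hincr base0 k α α' hoff hlt
      have h2 := hincr base1 k α α' hoff hlt
      have h3 := hL1 k
      rw [← hdiff α k] at h3
      have h4 : p0 α' k - p1 α' k = p0 α k - p1 α k := by rw [hdiff, hdiff]
      have h5 : ∑ c ∈ F, ρ k c ≤ p0 α' k - p0 α k := h1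
      have h6 : ∑ c ∈ F, ρ k c ≤ p1 α' k - p1 α k := h2
      rw [abs_le] at h3
      apply hb1
      constructor
      · intro h7
        by_contra h8
        apply hb0
        constructor
        · intro h9
          by_contra h10
          linarith
        · intro h9
          by_contra h10
          linarith
      · intro h7
        by_contra h8
        apply hb0
        constructor
        · intro h9
          by_contra h10
          linarith
        · intro h9
          by_contra h10
          linarith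
    refine Fin.ext ?_
    have h1 := key α α' hoff hb0 hb1
    have h2 := key α' α (fun j hj => (hoff j hj).symm) hb1 hb0
    omega)
  have hα' : ∀ i, θ i < p0 α (d i) ↔ θ i < p1 α (d i) := fun i => not_not.1 (hα i)
  -- the number of the exceptions
  have htagged : (C.filter fun c => ad c ≠ none).card = q * M * (q + 1) := by
    have h1 : (C.filter fun c => ad c ≠ none).card
        = ∑ t : Fin q × Fin M, ((C.filter fun c => ad c ≠ none).filter fun c => ad c = some t).card := by
      have h2 : ∀ c ∈ (C.filter fun c => ad c ≠ none), ad c ∈ (univ : Finset (Fin q × Fin M)).image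
          some := by
        intro c hc
        obtain ⟨t, ht⟩ := Option.ne_none_iff_exists'.1 (Finset.mem_filter.1 hc).2
        exact Finset.mem_image.2 ⟨t, Finset.mem_univ _, ht.symm⟩
      rw [Finset.card_eq_sum_card_fiberwise h2,
        Finset.sum_image (fun t _ t' _ h => Option.some_injective _ h)]
    have h3 : ∀ t : Fin q × Fin M,
        ((C.filter fun c => ad c ≠ none).filter fun c => ad c = some t).card = q + 1 := by
      intro t
      rw [← had t (Finset.mem_univ _), Finset.filter_filter]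
      congr 1
      refine Finset.filter_congr fun c _ => ?_
      constructor
      · exact fun h => h.2
      · exact fun h => ⟨by rw [h]; simp, h⟩
    rw [h1, Finset.sum_congr rfl fun t _ => h3 t, Finset.sum_const, Finset.card_univ,
      Fintype.card_prod, Fintype.card_fin, Fintype.card_fin, smul_eq_mul]
  have hRle : (R.card : ℝ) / P ≤ (C.card : ℝ) / P := by
    have : (R.card : ℝ) ≤ C.card := by exact_mod_cast Finset.card_le_card hRC
    gcongr
  have hcount : ∀ (base : κ → Y) (bad : Y → Prop) [DecidablePred bad],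
      ((∑ c ∈ R \ F, if bad (base c) then (1 : ℝ) else 0) ≤ R.card / P) →
      (C.filter fun c => bad (zz ad mx mn base α c)).card
        ≤ (q * M + 1) * (q + 1) + C.card / P := by
    intro base bad _ hb0
    have h1 : (C.filter fun c => bad (zz ad mx mn base α c)) ⊆
        (C.filter fun c => ad c ≠ none) ∪ F ∪ ((R \ F).filter fun c => bad (base c)) := by
      intro c hc
      rw [Finset.mem_filter] at hc
      rcases h : ad c with _ | t
      · by_cases hcF : c ∈ F
        · exact Finset.mem_union_left _ (Finset.mem_union_right _ hcF)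
        · refine Finset.mem_union_right _ (Finset.mem_filter.2 ⟨Finset.mem_sdiff.2
            ⟨Finset.mem_filter.2 ⟨hc.1, h⟩, hcF⟩, ?_⟩)
          rw [← zz_none (mx := mx) (mn := mn) (base := base) (α := α) h]
          exact hc.2
      · exact Finset.mem_union_left _ (Finset.mem_union_left _
          (Finset.mem_filter.2 ⟨hc.1, by rw [h]; simp⟩))
    have h2 := (Finset.card_le_card h1).trans ((Finset.card_union_le _ _).trans
      (Nat.add_le_add_right (Finset.card_union_le _ _) _))
    have h3 : ((R \ F).filter fun c => bad (base c)).card ≤ C.card / P := by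
      rw [Nat.le_div_iff_mul_le hP]
      have h4 : (((R \ F).filter fun c => bad (base c)).card : ℝ) ≤ C.card / P := by
        rw [Finset.card_filter]
        push_cast
        exact hb0.trans hRle
      rw [le_div_iff₀ (by exact_mod_cast hP)] at h4
      exact_mod_cast h4
    have h5 : (q * M + 1) * (q + 1) = q * M * (q + 1) + (q + 1) := by ring
    rw [htagged] at h2
    omega
  have hnn0 : ∀ c, (0 : ℝ) ≤ if bad0 (a (L c)) then (1 : ℝ) else 0 := fun c => by
    split_ifs <;> norm_num
  have hnn1 : ∀ c, (0 : ℝ) ≤ if bad1 (b (L c)) then (1 : ℝ) else 0 := fun c => by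
    split_ifs <;> norm_num
  have hzok : ∀ (base : κ → Y), (∀ c, ok (base c)) → ∀ c, ok (zz ad mx mn base α c) := by
    intro base hbase c
    rcases h : ad c with _ | t
    · rw [zz_none h]
      exact hbase c
    · rw [zz_some h]
      split_ifs
      · exact hmx _ _
      · exact hmn _ _
  refine ⟨zz ad mx mn base0 α, zz ad mx mn base1 α, hzok _ fun c => ?_, hzok _ fun c => ?_, hα',
    hcount base0 bad0 ?_, hcount base1 bad1 ?_⟩
  · rw [hbase0]
    simp only
    split_ifs
    · exact ha _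
    · exact hy0
  · rw [hbase1]
    simp only
    split_ifs
    · exact hb _
    · exact hy0
  · refine le_trans (Finset.sum_le_sum fun c hc => ?_) hL2
    rw [hbase0]
    simp only [if_pos hc]
    linarith [hnn1 c]
  · refine le_trans (Finset.sum_le_sum fun c hc => ?_) hL2
    rw [hbase1]
    simp only [if_pos hc]
    linarith [hnn0 c]

end Pool.Agent.helper18.DQ
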