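import Pool.Agent.helper36.DL.Model

/-!
# Boolean functions of halfspaces
-/

namespace Pool.Agent.helper18.DQ

open Pool.Agent.helper36.DL

variable {n : ℕ}

/-- `h` is a Boolean function `T` of `M` halfspaces `∑ j, w (d i) j * x j > θ i`, `i < M`, with
at most `D` different normal vectors `w k`; `T` gets the set of the `i` whose inequality holds -/
def IsCombination (D M : ℕ) (h : Cube n → Bool) : Prop :=
  ∃ (w : Fin D → Fin n → ℝ) (d : Fin M → Fin D) (θ : Fin M → ℝ) (T : Set (Fin M) → Bool),
    ∀ x, h x = T {i | θ i < ∑ j, if x j = true then w (d i) j else 0}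

/-- `h` is such a Boolean function on some subcube given by fixed values of at most `s`
variables -/
def IsLocalCombination (D M s : ℕ) (h : Cube n → Bool) : Prop :=
  ∃ (S : Finset (Fin n)) (u : Cube n) (g : Cube n → Bool), S.card ≤ s ∧ IsCombination D M g ∧
    ∀ x, (∀ j ∈ S, x j = u j) → h x = g x

/-- the generalised Fibonacci numbers: `1, L, L ^ 2 + 1, L ^ 3 + 2 L, ...` -/
def pp (L : ℕ) : ℕ → ℕ
  | 0 => 1
  | 1 => L
  | m + 2 => L * pp L (m + 1) + pp L m

end Pool.Agent.helper18.DQ
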