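import Pool.Agent.helper18.DQ.Adv

/-!
# No attribute-efficient mistake bound
-/

namespace Pool.Agent.helper18.DQ

open Filter Pool.Agent.helper36.DL

/-- a power is at most an exponential -/
theorem eventually_pow_le (k c : ℕ) : ∀ᶠ L : ℕ in atTop, c * L ^ k ≤ 2 ^ L := by
  have h1 := tendsto_pow_const_div_const_pow_of_one_lt k (r := (2 : ℝ)) (by norm_num)
  have h2 := h1.eventually (gt_mem_nhds (show (0 : ℝ) < 1 / (c + 1) by positivity))
  filter_upwards [h2] with L hL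
  have h3 : (0 : ℝ) < 2 ^ L := by positivity
  have h4 : (0 : ℝ) < (c : ℝ) + 1 := by positivity
  rw [div_lt_div_iff₀ h3 h4] at hL
  have h5 : (c : ℝ) * L ^ k ≤ 2 ^ L := by
    have h6 : (0 : ℝ) ≤ (L : ℝ) ^ k := by positivity
    nlinarith
  exact_mod_cast h5

theorem two_pow_le_fib (k : ℕ) : 2 ^ k ≤ Nat.fib (2 * k + 2) := by
  induction k with
  | zero => simp
  | succ k ih =>
    have h1 : Nat.fib (2 * (k + 1) + 2) = Nat.fib (2 * k + 2) + Nat.fib (2 * k + 3) :=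
      Nat.fib_add_two
    have h2 : Nat.fib (2 * k + 2) ≤ Nat.fib (2 * k + 3) := Nat.fib_le_fib_succ
    rw [pow_succ]
    omega

theorem not_polyBound (D M s : ℕ → ℕ → ℕ) (a b n₀ : ℕ) (hab : a < b)
    (hDMs : ∀ n ≥ n₀, ∀ r, ((D n r + 1) ^ 2 * (M n r + 1) + s n r) ^ b ≤ n ^ a)
    (A : ∀ n : ℕ, ℕ → Learner n)
    (hA : ∀ n r h, IsLocalCombination (D n r) (M n r) (s n r) (A n r h)) :
    ¬ ∃ C : ℕ, ∀ (n r : ℕ) (c : Cube n → Bool), IsDecisionList c → (relevant c).ncard ≤ r →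
      ∀ xs : List (Cube n), mistakes (A n r) c [] xs
        ≤ C * (r + 1) ^ C * (Nat.log 2 n + 1) ^ C := by
  rintro ⟨C, hC⟩
  obtain ⟨L, hL1, hL2, hL3⟩ := ((eventually_pow_le (2 * C + 1)
    (4 * (C + 1) * (2 * (b + 1)) ^ (2 * C + 1))).and
    ((eventually_ge_atTop 1).and (eventually_ge_atTop n₀))).exists
  set k := b * L with hk
  set n := 2 ^ k with hn
  set r := 2 * k + 1 with hr
  set X := (D n r + 1) ^ 2 * (M n r + 1) + s n r with hX
  have hb1 : 1 ≤ b := by omega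
  have hLk : L ≤ k := by rw [hk]; exact Nat.le_mul_of_pos_left _ hb1
  have hnn0 : n₀ ≤ n := hL3.trans (hLk.trans Nat.lt_two_pow_self.le)
  have hX1 : 1 ≤ X := by
    have : 0 < (D n r + 1) ^ 2 * (M n r + 1) := by positivity
    omega
  have hXle : X ≤ 2 ^ (a * L) := by
    have h1 := hDMs n hnn0 r
    have h2 : n ^ a = (2 ^ (a * L)) ^ b := by
      rw [hn, hk, ← pow_mul, ← pow_mul]
      congr 1
      ring
    rw [h2] at h1
    exact (Nat.pow_le_pow_iff_left (by omega)).1 h1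
  have hPn : n ≤ Nat.fib (r + 1) := two_pow_le_fib k
  set v := n / r with hv
  set B := C * (r + 1) ^ C * (Nat.log 2 n + 1) ^ C with hB
  -- the main inequality
  have hmain : (3 * (B + 1) * X) * r ≤ n := by
    have hlog : Nat.log 2 n = k := by rw [hn]; exact Nat.log_pow (by norm_num) k
    have h1 : B + 1 ≤ (C + 1) * (2 * (k + 1)) ^ (2 * C) := by
      rw [hB, hlog, hr]
      have h2 : 2 * k + 1 + 1 = 2 * (k + 1) := by ring
      rw [h2]
      have h3 : (k + 1) ^ C ≤ (2 * (k + 1)) ^ C := Nat.pow_le_pow_left (by omega) C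
      have h4 : 1 ≤ (2 * (k + 1)) ^ (2 * C) := Nat.one_le_pow _ _ (by omega)
      calc C * (2 * (k + 1)) ^ C * (k + 1) ^ C + 1
          ≤ C * (2 * (k + 1)) ^ C * (2 * (k + 1)) ^ C + (2 * (k + 1)) ^ (2 * C) :=
            Nat.add_le_add (Nat.mul_le_mul_left _ h3) h4
        _ = (C + 1) * (2 * (k + 1)) ^ (2 * C) := by rw [two_mul C, pow_add]; ring
    have h5 : r ≤ 2 * (k + 1) := by omega
    have h6 : 2 * (k + 1) ≤ 2 * (b + 1) * L := by
      rw [hk]
      nlinarith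
    have h7 : 3 * (B + 1) * r ≤ 2 ^ L := by
      calc 3 * (B + 1) * r
          ≤ 4 * ((C + 1) * (2 * (k + 1)) ^ (2 * C)) * (2 * (k + 1)) :=
            Nat.mul_le_mul (Nat.mul_le_mul (by norm_num) h1) h5
        _ = 4 * (C + 1) * (2 * (k + 1)) ^ (2 * C + 1) := by rw [pow_succ]; ring
        _ ≤ 4 * (C + 1) * (2 * (b + 1) * L) ^ (2 * C + 1) :=
            Nat.mul_le_mul_left _ (Nat.pow_le_pow_left h6 _)
        _ = 4 * (C + 1) * (2 * (b + 1)) ^ (2 * C + 1) * L ^ (2 * C + 1) := by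
            rw [mul_pow (2 * (b + 1)) L]; ring
        _ ≤ 2 ^ L := hL1
    calc (3 * (B + 1) * X) * r = X * (3 * (B + 1) * r) := by ring
      _ ≤ 2 ^ (a * L) * 2 ^ L := Nat.mul_le_mul hXle h7
      _ = 2 ^ ((a + 1) * L) := by rw [← pow_add]; congr 1; ring
      _ ≤ n := by
        rw [hn, hk]
        exact Nat.pow_le_pow_right (by norm_num) (Nat.mul_le_mul_right _ hab)
  have hr1 : 1 ≤ r := by omega
  have hv1 : 3 * (B + 1) * X ≤ v := (Nat.le_div_iff_mul_le hr1).2 hmain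
  have hv0 : 1 ≤ v := by
    have : 1 ≤ 3 * (B + 1) * X := Nat.mul_pos (Nat.mul_pos (by norm_num) (Nat.succ_pos _)) hX1
    omega
  obtain ⟨c, hc', hrel, xs, hxs⟩ := comb_learner (D n r) (M n r) (s n r) 1 r v n le_rfl hr1 hv0
    (by rw [mul_one]; exact Nat.mul_div_le n r) (A n r) (hA n r)
  rw [mul_one] at hrel
  rw [pp_one] at hxs
  have hc : IsDecisionList c := by
    obtain ⟨l, b, _, h⟩ := hc'
    exact ⟨l, b, h⟩
  have hup := hC n r c hc hrel xs
  rw [← hB] at hup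
  have hK : (D n r * M n r + 1) * (D n r + 1) + s n r ≤ X := by
    rw [hX]
    have h1 : (D n r * M n r + 1) ≤ (D n r + 1) * (M n r + 1) := by nlinarith
    nlinarith
  have hvP : v / Nat.fib (r + 1) ≤ 1 := by
    have h1 : v ≤ n := Nat.div_le_self _ _
    calc v / Nat.fib (r + 1) ≤ Nat.fib (r + 1) / Nat.fib (r + 1) :=
          Nat.div_le_div_right (h1.trans hPn)
      _ ≤ 1 := by
        rw [Nat.div_self (Nat.fib_pos.2 (Nat.succ_pos r))]
  set K := (D n r * M n r + 1) * (D n r + 1) + s n r + v / Nat.fib (r + 1) with hKdef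
  have hK0 : 1 ≤ K := by
    have h2 : 0 < (D n r * M n r + 1) * (D n r + 1) := Nat.mul_pos (Nat.succ_pos _) (Nat.succ_pos _)
    have h3 : 0 ≤ v / Nat.fib (r + 1) := Nat.zero_le _
    omega
  have hK2 : K ≤ 2 * X := by omega
  have h1 : B + 1 ≤ (v - 1) / K := by
    rw [Nat.le_div_iff_mul_le hK0]
    have h2 : (B + 1) * K ≤ (B + 1) * (2 * X) := Nat.mul_le_mul_left _ hK2
    have h3 : (B + 1) * (2 * X) + (B + 1) * X = 3 * (B + 1) * X := by ring
    have h4 : 1 ≤ (B + 1) * X := Nat.mul_pos (Nat.succ_pos _) hX1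
    omega
  omega

end Pool.Agent.helper18.DQ
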