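import Pool.Agent.helper36.DL2.Families
import Pool.Agent.helper18.DQ.Defs

/-!
# Two families of patterns with the same mean

A pattern is a finite set `S` of levels `(i, l)` with `i < m` (the run) and `l < L`; its label
`lab S L m` is `true` iff the highest run met by `S` is even, and `false` for the empty set. There
are two families of `pp L m ≥ L ^ m` patterns, the first with the label `false` and the second with
the label `true`, up to one exception altogether, such that every level belongs to equally many
patterns of both families.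
-/

namespace Pool.Agent.helper18.DQ

open Finset
open Pool.Agent.helper36.DL2 (lab levels mem_levels)

theorem pp_le_succ {L : ℕ} (hL : 1 ≤ L) (m : ℕ) : pp L m ≤ pp L (m + 1) := by
  rcases m with _ | m
  · exact hL
  · rw [pp]
    nlinarith [Nat.zero_le (pp L (m + 1)), Nat.zero_le (pp L m)]

theorem pow_le_pp (L m : ℕ) : L ^ m ≤ pp L m := by
  induction m using Nat.twoStepInduction with
  | zero => exact le_rfl
  | one => rw [pow_one]; exact le_rfl
  | more m _ ih =>
    rw [pp, pow_succ, mul_comm]
    exact (Nat.mul_le_mul_left _ ih).trans (Nat.le_add_right _ _)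

theorem pp_one (m : ℕ) : pp 1 m = Nat.fib (m + 1) := by
  induction m using Nat.twoStepInduction with
  | zero => rfl
  | one => rfl
  | more m h1 h2 => rw [pp, h1, h2, one_mul, Nat.fib_add_two (n := m + 1), add_comm]

theorem pp_pos {L : ℕ} (hL : 1 ≤ L) (m : ℕ) : 0 < pp L m :=
  (Nat.pow_pos hL).trans_le (pow_le_pp L m)

/-- all runs are raised by one -/
def up (S : Finset (ℕ × ℕ)) : Finset (ℕ × ℕ) := S.image fun p => (p.1 + 1, p.2)

/-- the run `0` -/
def low (L : ℕ) : Finset (ℕ × ℕ) := (range L).image fun l => (0, l)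

/-- all runs are raised by one and the run `0` is added -/
def up0 (L : ℕ) (S : Finset (ℕ × ℕ)) : Finset (ℕ × ℕ) := low L ∪ up S

theorem succ_mem_up {S : Finset (ℕ × ℕ)} {i l : ℕ} : (i + 1, l) ∈ up S ↔ (i, l) ∈ S := by
  simp [up]

theorem zero_notMem_up {S : Finset (ℕ × ℕ)} {l : ℕ} : (0, l) ∉ up S := by
  simp [up]

theorem succ_mem_up0 {L : ℕ} {S : Finset (ℕ × ℕ)} {i l : ℕ} :
    (i + 1, l) ∈ up0 L S ↔ (i, l) ∈ S := by
  simp [up0, up, low]

theorem zero_mem_up0 {L : ℕ} {S : Finset (ℕ × ℕ)} {l : ℕ} (hl : l < L) : (0, l) ∈ up0 L S := by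
  simp [up0, low, hl]

theorem even_succ (m : ℕ) : decide (Even (m + 1)) = !decide (Even m) := by
  by_cases h : Even m <;> simp [Nat.even_add_one, h]

theorem lab_up0 {L : ℕ} (hL : 1 ≤ L) (m : ℕ) (S : Finset (ℕ × ℕ)) :
    lab (up0 L S) L (m + 1) = !(lab S L m) := by
  induction m with
  | zero =>
    have h1 : lab (up0 L S) L (0 + 1) = true := by
      rw [lab, if_pos ⟨0, hL, zero_mem_up0 hL⟩]
      simp
    rw [h1]
    rfl
  | succ m ih =>
    rw [lab]
    simp only [succ_mem_up0]
    rw [ih, lab]
    split_ifs
    · exact even_succ m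
    · rfl

theorem lab_up {L : ℕ} (m : ℕ) (S : Finset (ℕ × ℕ)) (hS : ∃ i < m, ∃ l < L, (i, l) ∈ S) :
    lab (up S) L (m + 1) = !(lab S L m) := by
  induction m with
  | zero => obtain ⟨j, hj, _⟩ := hS; omega
  | succ m ih =>
    rw [lab]
    simp only [succ_mem_up]
    by_cases h : ∃ l < L, (m, l) ∈ S
    · rw [if_pos h, lab, if_pos h]
      exact even_succ m
    · rw [if_neg h, ih ?_, lab, if_neg h]
      obtain ⟨j, hj, hjS⟩ := hS
      refine ⟨j, ?_, hjS⟩
      rcases Nat.lt_succ_iff_lt_or_eq.1 hj with h2 | h2
      · exact h2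
      · exact absurd (h2 ▸ hjS) h

theorem lab_empty (L m : ℕ) : lab ∅ L m = false := by
  induction m with
  | zero => rfl
  | succ m ih =>
    rw [lab, if_neg, ih]
    rintro ⟨l, _, hl⟩
    exact Finset.notMem_empty _ hl

theorem lab_single {L l : ℕ} (hl : l < L) (m : ℕ) : lab {(0, l)} L (m + 1) = true := by
  induction m with
  | zero =>
    rw [lab, if_pos ⟨l, hl, Finset.mem_singleton_self _⟩]
    simp
  | succ m ih =>
    rw [lab, if_neg, ih]
    rintro ⟨l', _, hl'⟩
    simp at hl'

mutual
/-- the first family -/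
def fa (L : ℕ) : ℕ → List (Finset (ℕ × ℕ))
  | 0 => [∅]
  | m + 1 => (fb L m).map (up0 L) ++ List.replicate (pp L (m + 1) - pp L m) ∅
/-- the second family -/
def fb (L : ℕ) : ℕ → List (Finset (ℕ × ℕ))
  | 0 => [∅]
  | m + 1 => ((fa L m).filter (fun S => decide (S ≠ ∅))).map up
      ++ (List.range L).flatMap fun l => List.replicate (pp L m) {(0, l)}
end

theorem length_flatMap (P : ℕ) (Ls : List ℕ) :
    (Ls.flatMap fun l => List.replicate P ({(0, l)} : Finset (ℕ × ℕ))).length
      = Ls.length * P := by
  induction Ls with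
  | nil => simp
  | cons a Ls ih =>
    rw [List.flatMap_cons, List.length_append, ih, List.length_replicate, List.length_cons]
    ring

theorem fa_fb_length {L : ℕ} (hL : 1 ≤ L) (m : ℕ) :
    (fa L m).length = pp L m ∧ (fb L m).length = pp L m ∧
    ((fa L m).filter (fun S => decide (S ≠ ∅))).length + L * pp L m = pp L (m + 1) := by
  induction m with
  | zero => simp [fa, fb, pp]
  | succ m ih =>
    obtain ⟨h1, h2, h3⟩ := ih
    have h4 := pp_le_succ hL m
    refine ⟨?_, ?_, ?_⟩
    · rw [fa, List.length_append, List.length_map, List.length_replicate, h2]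
      omega
    · rw [fb, List.length_append, List.length_map, length_flatMap, List.length_range, h3]
    · rw [fa, List.filter_append, List.length_append, List.filter_map, List.length_map]
      have h5 : (List.filter ((fun S => decide (S ≠ ∅)) ∘ up0 L) (fb L m)) = fb L m := by
        rw [List.filter_eq_self]
        intro S _
        have h6 : up0 L S ≠ ∅ := Finset.nonempty_iff_ne_empty.1 ⟨(0, 0), zero_mem_up0 hL⟩
        simp [h6]
      rw [h5, h2, pp]
      simp
      ring

theorem fa_fb_subset {L : ℕ} (m : ℕ) :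
    (∀ S ∈ fa L m, S ⊆ levels m L) ∧ (∀ S ∈ fb L m, S ⊆ levels m L) := by
  induction m with
  | zero => simp [fa, fb]
  | succ m ih =>
    obtain ⟨h1, h2⟩ := ih
    have hup : ∀ S : Finset (ℕ × ℕ), S ⊆ levels m L → up S ⊆ levels (m + 1) L := by
      intro S hS j hj
      rw [up, Finset.mem_image] at hj
      obtain ⟨i, hi, rfl⟩ := hj
      have := mem_levels.1 (hS hi)
      rw [mem_levels]
      exact ⟨by omega, this.2⟩
    refine ⟨fun S hS => ?_, fun S hS => ?_⟩
    · rw [fa, List.mem_append, List.mem_map] at hS
      rcases hS with ⟨T, hT, rfl⟩ | hS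
      · rw [up0, Finset.union_subset_iff]
        refine ⟨fun j hj => ?_, hup T (h2 T hT)⟩
        rw [low, Finset.mem_image] at hj
        obtain ⟨l, hl, rfl⟩ := hj
        rw [mem_levels]
        exact ⟨Nat.succ_pos _, Finset.mem_range.1 hl⟩
      · rw [List.eq_of_mem_replicate hS]
        exact Finset.empty_subset _
    · rw [fb, List.mem_append, List.mem_map, List.mem_flatMap] at hS
      rcases hS with ⟨T, hT, rfl⟩ | ⟨l, hl, hS⟩
      · exact hup T (h1 T (List.mem_of_mem_filter hT))
      · rw [List.eq_of_mem_replicate hS, Finset.singleton_subset_iff, mem_levels]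
        exact ⟨Nat.succ_pos _, List.mem_range.1 hl⟩

/-- the value of the linear form with the coefficients `w` -/
def lin (w : ℕ × ℕ → ℝ) (S : Finset (ℕ × ℕ)) : ℝ := ∑ j ∈ S, w j

/-- the shifted coefficients -/
def shw (w : ℕ × ℕ → ℝ) (p : ℕ × ℕ) : ℝ := w (p.1 + 1, p.2)

theorem lin_up (w : ℕ × ℕ → ℝ) (S : Finset (ℕ × ℕ)) : lin w (up S) = lin (shw w) S := by
  rw [lin, up, Finset.sum_image]
  · rfl
  · intro a _ b _ h
    rw [Prod.ext_iff] at h ⊢
    exact ⟨by simpa using h.1, h.2⟩

theorem lin_up0 (w : ℕ × ℕ → ℝ) (L : ℕ) (S : Finset (ℕ × ℕ)) :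
    lin w (up0 L S) = lin w (low L) + lin (shw w) S := by
  rw [← lin_up, lin, up0, Finset.sum_union]
  · rfl
  · rw [Finset.disjoint_left]
    intro j hj hj'
    rw [low, Finset.mem_image] at hj
    obtain ⟨l, _, rfl⟩ := hj
    exact zero_notMem_up hj'

theorem sum_map_filter (w : ℕ × ℕ → ℝ) (Ls : List (Finset (ℕ × ℕ))) :
    ((Ls.filter (fun S => decide (S ≠ ∅))).map (lin w)).sum = (Ls.map (lin w)).sum := by
  induction Ls with
  | nil => rfl
  | cons S Ls ih =>
    by_cases h : S = ∅
    · rw [List.filter_cons_of_neg (by simp [h]), ih, List.map_cons, List.sum_cons, h]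
      simp [lin]
    · rw [List.filter_cons_of_pos (by simp [h]), List.map_cons, List.sum_cons, List.map_cons,
        List.sum_cons, ih]

theorem sum_map_add_const (c : ℝ) (f : Finset (ℕ × ℕ) → ℝ) (Ls : List (Finset (ℕ × ℕ))) :
    (Ls.map (fun S => c + f S)).sum = Ls.length * c + (Ls.map f).sum := by
  induction Ls with
  | nil => simp
  | cons S Ls ih =>
    rw [List.map_cons, List.sum_cons, ih, List.map_cons, List.sum_cons, List.length_cons]
    push_cast
    ring

theorem sum_flatMap (w : ℕ × ℕ → ℝ) (P L : ℕ) :
    (((List.range L).flatMap fun l => List.replicate P ({(0, l)} : Finset (ℕ × ℕ))).map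
      (lin w)).sum = P * lin w (low L) := by
  induction L with
  | zero => simp [lin, low]
  | succ L ih =>
    rw [List.range_succ, List.flatMap_append, List.map_append, List.sum_append, ih]
    have h1 : lin w (low (L + 1)) = w (0, L) + lin w (low L) := by
      rw [lin, low, Finset.range_add_one, Finset.image_insert, Finset.sum_insert]
      · rfl
      · simp
    rw [h1]
    simp [lin]
    ring

theorem fa_fb_lin {L : ℕ} (hL : 1 ≤ L) (m : ℕ) : ∀ w : ℕ × ℕ → ℝ,
    ((fa L m).map (lin w)).sum = ((fb L m).map (lin w)).sum := by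
  induction m with
  | zero => intro w; simp [fa, fb]
  | succ m ih =>
    intro w
    have h1 : (((fb L m).map (up0 L)).map (lin w)).sum
        = (fb L m).length * lin w (low L) + ((fb L m).map (lin (shw w))).sum := by
      rw [List.map_map, ← sum_map_add_const]
      congr 1
      refine List.map_congr_left fun S _ => ?_
      exact lin_up0 w L S
    have h2 : ((((fa L m).filter (fun S => decide (S ≠ ∅))).map up).map (lin w)).sum
        = ((fa L m).map (lin (shw w))).sum := by
      rw [List.map_map, ← sum_map_filter]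
      congr 1
      refine List.map_congr_left fun S _ => ?_
      exact lin_up w S
    rw [fa, fb, List.map_append, List.sum_append, h1, List.map_append, List.sum_append, h2,
      (fa_fb_length hL m).2.1, ih, sum_flatMap]
    simp [lin]
    ring

/-- the number of the wrong patterns -/
theorem fa_fb_wrong {L : ℕ} (hL : 1 ≤ L) (m : ℕ) : (fa L m).countP (fun S => lab S L m = true)
    + (fb L m).countP (fun S => lab S L m = false) = 1 := by
  induction m with
  | zero => simp [fa, fb, lab]
  | succ m ih =>
    have h1 : (fa L (m + 1)).countP (fun S => lab S L (m + 1) = true)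
        = (fb L m).countP (fun S => lab S L m = false) := by
      rw [fa, List.countP_append, List.countP_map]
      have h2 : (List.replicate (pp L (m + 1) - pp L m) (∅ : Finset (ℕ × ℕ))).countP
          (fun S => lab S L (m + 1) = true) = 0 := by
        rw [List.countP_eq_zero]
        intro S hS
        rw [List.eq_of_mem_replicate hS, lab_empty]
        simp
      rw [h2, add_zero]
      refine List.countP_congr fun S _ => ?_
      simp [lab_up0 hL]
    have h3 : (fb L (m + 1)).countP (fun S => lab S L (m + 1) = false)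
        = (fa L m).countP (fun S => lab S L m = true) := by
      rw [fb, List.countP_append, List.countP_map]
      have h2 : ((List.range L).flatMap fun l =>
          List.replicate (pp L m) ({(0, l)} : Finset (ℕ × ℕ))).countP
          (fun S => lab S L (m + 1) = false) = 0 := by
        rw [List.countP_eq_zero]
        intro S hS
        rw [List.mem_flatMap] at hS
        obtain ⟨l, hl, hS⟩ := hS
        rw [List.eq_of_mem_replicate hS, lab_single (List.mem_range.1 hl)]
        simp
      rw [h2, add_zero, List.countP_filter]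
      refine List.countP_congr fun S hS => ?_
      by_cases h : S = ∅
      · simp [h, lab_empty]
      · have h4 : ∃ i < m, ∃ l < L, (i, l) ∈ S := by
          obtain ⟨j, hj⟩ := Finset.nonempty_iff_ne_empty.2 h
          have h5 := mem_levels.1 ((fa_fb_subset m).1 S hS hj)
          exact ⟨j.1, h5.1, j.2, h5.2, hj⟩
        simp [h, lab_up m S h4]
    rw [h1, h3, add_comm]
    exact ih

theorem countP_eq_sum {α : Type*} (p : α → Prop) [DecidablePred p] (Ls : List α) :
    ((Ls.countP (fun x => p x) : ℕ) : ℝ) = (Ls.map fun x => if p x then (1 : ℝ) else 0).sum := by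
  induction Ls with
  | nil => simp
  | cons a Ls ih =>
    rw [List.map_cons, List.sum_cons, ← ih]
    by_cases h : p a
    · rw [List.countP_cons_of_pos (by simpa using h), if_pos h]
      push_cast
      ring
    · rw [List.countP_cons_of_neg (by simpa using h), if_neg h]
      ring

/-- the two families, as functions -/
theorem exists_patterns {L : ℕ} (hL : 1 ≤ L) (m : ℕ) :
    ∃ a b : Fin (pp L m) → Finset (ℕ × ℕ),
    (∀ i, a i ⊆ levels m L) ∧ (∀ i, b i ⊆ levels m L) ∧
    (∀ w : ℕ × ℕ → ℝ, ∑ i, lin w (a i) = ∑ i, lin w (b i)) ∧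
    (∑ i, ((if lab (a i) L m = true then (1 : ℝ) else 0)
      + (if lab (b i) L m = false then 1 else 0)) = 1) := by
  have ha := (fa_fb_length hL m).1
  have hb := (fa_fb_length hL m).2.1
  have key : ∀ (Ls : List (Finset (ℕ × ℕ))) (hLs : Ls.length = pp L m)
      (f : Finset (ℕ × ℕ) → ℝ),
      ∑ i : Fin (pp L m), f (Ls[i.1]'(by rw [hLs]; exact i.2)) = (Ls.map f).sum := by
    intro Ls hLs f
    have := Fin.sum_univ_fun_getElem Ls f
    rw [← this]
    exact Fintype.sum_equiv (finCongr hLs.symm) _ _ (fun i => rfl)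
  refine ⟨fun i => (fa L m)[i.1]'(by rw [ha]; exact i.2),
    fun i => (fb L m)[i.1]'(by rw [hb]; exact i.2),
    fun i => (fa_fb_subset m).1 _ (List.getElem_mem _),
    fun i => (fa_fb_subset m).2 _ (List.getElem_mem _), fun w => ?_, ?_⟩
  · rw [key _ ha, key _ hb, fa_fb_lin hL]
  · rw [Finset.sum_add_distrib, key _ ha (fun S => if lab S L m = true then (1 : ℝ) else 0),
      key _ hb (fun S => if lab S L m = false then (1 : ℝ) else 0),
      ← countP_eq_sum (fun S => lab S L m = true), ← countP_eq_sum (fun S => lab S L m = false)]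
    exact_mod_cast fa_fb_wrong hL m

end Pool.Agent.helper18.DQ
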