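import Pool.Agent.helper18.DQ.Defs
import Pool.Agent.helper18.DQ.Pat
import Pool.Agent.helper18.DQ.Core
import Pool.Agent.helper36.DL4.Adv

/-!
# Instances
-/

namespace Pool.Agent.helper18.DQ

open Finset Pool.Agent.helper36.DL
open Pool.Agent.helper36.DL2 (lab levels tgt tgt_lab)

variable {n : ℕ}

/-- the true variables of the instance with the patterns `z c` of the candidates `c ∈ C` -/
def trueSet (vr : (ℕ × ℕ) × ℕ → Fin n) (C : Finset ℕ) (z : ℕ → Finset (ℕ × ℕ)) :
    Finset (Fin n) :=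
  (C.sigma z).image fun p => vr (p.2, p.1)

/-- the instance: the variables in `S` have the values `u` -/
def inst (vr : (ℕ × ℕ) × ℕ → Fin n) (S : Finset (Fin n)) (u : Cube n) (C : Finset ℕ)
    (z : ℕ → Finset (ℕ × ℕ)) : Cube n :=
  fun v => if v ∈ S then u v else decide (v ∈ trueSet vr C z)

section

variable {L m N : ℕ} {vr : (ℕ × ℕ) × ℕ → Fin n}
  (hvr : Set.InjOn vr (levels m L ×ˢ range N : Finset ((ℕ × ℕ) × ℕ))) {C : Finset ℕ}
  (hC : C ⊆ range N) {z : ℕ → Finset (ℕ × ℕ)} (hz : ∀ c, z c ⊆ levels m L)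
  {S : Finset (Fin n)} (u : Cube n) (hS : ∀ c ∈ C, ∀ j ∈ levels m L, vr (j, c) ∉ S)

include hvr hC hz hS

theorem sum_inst (w : Fin n → ℝ) : (∑ v, if inst vr S u C z v = true then w v else 0)
    = (∑ v ∈ S, if u v = true then w v else 0)
      + ∑ c ∈ C, lin (fun j => w (vr (j, c))) (z c) := by
  classical
  have h1 : ∀ v, (if inst vr S u C z v = true then w v else 0)
      = (if v ∈ S then (if u v = true then w v else 0) else 0)
        + (if v ∈ trueSet vr C z then w v else 0) := by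
    intro v
    by_cases hv : v ∈ S
    · have h2 : v ∉ trueSet vr C z := by
        intro h3
        rw [trueSet, Finset.mem_image] at h3
        obtain ⟨⟨c, j⟩, hp, rfl⟩ := h3
        rw [Finset.mem_sigma] at hp
        exact hS c hp.1 j (hz _ hp.2) hv
      rw [inst, if_pos hv, if_pos hv, if_neg h2, add_zero]
    · rw [inst, if_neg hv, if_neg hv, zero_add]
      simp only [decide_eq_true_eq]
  rw [Finset.sum_congr rfl fun v _ => h1 v, Finset.sum_add_distrib, Finset.sum_ite_mem,
    Finset.univ_inter, Finset.sum_ite_mem, Finset.univ_inter]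
  congr 1
  rw [trueSet, Finset.sum_image, Finset.sum_sigma]
  · rfl
  · rintro ⟨c, j⟩ hp ⟨c', j'⟩ hp' he
    rw [Finset.mem_coe, Finset.mem_sigma] at hp hp'
    have h1 := hvr (Finset.mem_coe.2 (Finset.mem_product.2 ⟨hz _ hp.2, hC hp.1⟩))
      (Finset.mem_coe.2 (Finset.mem_product.2 ⟨hz _ hp'.2, hC hp'.1⟩)) he
    rw [Prod.ext_iff] at h1
    simp only at h1
    obtain ⟨rfl, rfl⟩ := h1
    rfl

theorem tgt_inst {c : ℕ} (hc : c ∈ C) :
    tgt (fun j => vr (j, c)) L m (inst vr S u C z) = lab (z c) L m := by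
  classical
  refine tgt_lab _ _ _ _ _ fun j hj => ?_
  rw [inst, if_neg (hS c hc j hj), decide_eq_true_eq, trueSet, Finset.mem_image]
  constructor
  · rintro ⟨⟨c', j'⟩, hp, he⟩
    rw [Finset.mem_sigma] at hp
    have h1 := hvr (Finset.mem_coe.2 (Finset.mem_product.2 ⟨hz _ hp.2, hC hp.1⟩))
      (Finset.mem_coe.2 (Finset.mem_product.2 ⟨hj, hC hc⟩)) he
    rw [Prod.ext_iff] at h1
    simp only at h1
    obtain ⟨rfl, rfl⟩ := h1
    exact hp.2
  · intro h
    exact ⟨⟨c, j⟩, Finset.mem_sigma.2 ⟨hc, h⟩, rfl⟩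

end

/-- the number of exceptions for `v` candidates -/
def exc (D M s L m v : ℕ) : ℕ := (D * M + 1) * (D + 1) + s + v / pp L m

/-- **forcing a mistake** -/
theorem step {D M s L m N : ℕ} (hL : 1 ≤ L) {vr : (ℕ × ℕ) × ℕ → Fin n}
    (hvr : Set.InjOn vr (levels m L ×ˢ range N : Finset ((ℕ × ℕ) × ℕ))) {C : Finset ℕ}
    (hC : C ⊆ range N) (h : Cube n → Bool) (hh : IsLocalCombination D M s h) :
    ∃ x b', h x ≠ b' ∧
      (C.filter fun c => tgt (fun j => vr (j, c)) L m x ≠ b').card ≤ exc D M s L m C.card := by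
  classical
  obtain ⟨S, u, g, hScard, ⟨w, d, θ, T, hT⟩, hg⟩ := hh
  set C' := C.filter fun c => ∀ j ∈ levels m L, vr (j, c) ∉ S with hC'
  have hC'C : C' ⊆ C := Finset.filter_subset _ _
  have hC'N : C' ⊆ range N := hC'C.trans hC
  have hC'S : ∀ c ∈ C', ∀ j ∈ levels m L, vr (j, c) ∉ S := fun c hc => (Finset.mem_filter.1 hc).2
  -- the removed candidates
  have hrem : (C.filter fun c => ¬ ∀ j ∈ levels m L, vr (j, c) ∉ S).card ≤ s := by
    refine le_trans ?_ hScard
    have h1 : ∀ c, ∃ j, (¬ ∀ j ∈ levels m L, vr (j, c) ∉ S) → j ∈ levels m L ∧ vr (j, c) ∈ S := by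
      intro c
      by_cases hc : ∀ j ∈ levels m L, vr (j, c) ∉ S
      · exact ⟨(0, 0), fun h => absurd hc h⟩
      · have h2 := hc
        push Not at h2
        obtain ⟨j, hj, hj'⟩ := h2
        exact ⟨j, fun _ => ⟨hj, hj'⟩⟩
    choose jf hjf using h1
    refine Finset.card_le_card_of_injOn (fun c => vr (jf c, c)) (fun c hc => ?_) ?_
    · rw [Finset.mem_coe, Finset.mem_filter] at hc
      exact (hjf c hc.2).2
    · intro c hc c' hc' he
      rw [Finset.mem_coe, Finset.mem_filter] at hc hc'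
      have h2 := hvr (Finset.mem_coe.2 (Finset.mem_product.2
        ⟨(hjf c hc.2).1, hC hc.1⟩))
        (Finset.mem_coe.2 (Finset.mem_product.2
        ⟨(hjf c' hc'.2).1, hC hc'.1⟩)) he
      exact (Prod.ext_iff.1 h2).2
  obtain ⟨a, b, ha, hb, hab, he⟩ := exists_patterns hL m
  have hlin : ∀ (u : ℕ × ℕ → ℝ) (S S' : Finset (ℕ × ℕ)), S ⊆ levels m L → S' ⊆ levels m L →
      |lin u S - lin u S'| ≤ ∑ j ∈ levels m L, |u j| := by
    intro u S S' hS hS'
    have h1 : ∀ S : Finset (ℕ × ℕ), S ⊆ levels m L →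
        lin u S = ∑ j ∈ levels m L, if j ∈ S then u j else 0 := by
      intro S hS
      rw [Finset.sum_ite_mem, Finset.inter_eq_right.2 hS]
      rfl
    rw [h1 S hS, h1 S' hS', ← Finset.sum_sub_distrib]
    refine (Finset.abs_sum_le_sum_abs _ _).trans (Finset.sum_le_sum fun j _ => ?_)
    by_cases h2 : j ∈ S <;> by_cases h3 : j ∈ S' <;> simp [h2, h3]
  obtain ⟨z0, z1, hz0, hz1, hth, hb0, hb1⟩ := core (κ := ℕ) (Y := Finset (ℕ × ℕ)) (q := D) (M := M)
    (P := pp L m) (pp_pos hL m) C'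
    (fun k c S => lin (fun j => w k (vr (j, c))) S)
    (fun k c => ∑ j ∈ levels m L, |w k (vr (j, c))|) (fun S => S ⊆ levels m L)
    (fun k c S S' hS hS' => hlin _ S S' hS hS')
    (fun k c => (levels m L).filter fun j => 0 < w k (vr (j, c)))
    (fun k c => (levels m L).filter fun j => w k (vr (j, c)) < 0)
    (fun k c => Finset.filter_subset _ _) (fun k c => Finset.filter_subset _ _)
    (fun k c => by
      rw [lin, lin, Finset.sum_filter, Finset.sum_filter, ← Finset.sum_sub_distrib]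
      refine Finset.sum_congr rfl fun j _ => ?_
      rcases lt_trichotomy (w k (vr (j, c))) 0 with h1 | h1 | h1
      · rw [if_neg (by linarith), if_pos h1, abs_of_neg h1]
        ring
      · rw [h1]; simp
      · rw [if_pos h1, if_neg (by linarith), abs_of_pos h1]
        ring)
    a b ha hb (fun k c => hab _) ∅ (Finset.empty_subset _)
    (fun S => lab S L m = true) (fun S => lab S L m = false) he d
    (fun i => θ i - ∑ v ∈ S, if u v = true then w (d i) v else 0)
  have hsub : ∀ (z : ℕ → Finset (ℕ × ℕ)), h (inst vr S u C' z) = g (inst vr S u C' z) := by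
    intro z
    refine hg _ fun j hj => ?_
    rw [inst, if_pos hj]
  have hsame : h (inst vr S u C' z0) = h (inst vr S u C' z1) := by
    rw [hsub, hsub, hT, hT]
    congr 1
    ext i
    rw [Set.mem_ofPred_eq, Set.mem_ofPred_eq, sum_inst hvr hC'N hz0 u hC'S,
      sum_inst hvr hC'N hz1 u hC'S]
    have h1 := hth i
    rw [sub_lt_iff_lt_add', sub_lt_iff_lt_add'] at h1
    exact h1
  have hcount : ∀ (z : ℕ → Finset (ℕ × ℕ)) (b' : Bool), (∀ c, z c ⊆ levels m L) →
      (C'.filter fun c => lab (z c) L m ≠ b').card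
        ≤ (D * M + 1) * (D + 1) + C'.card / pp L m →
      (C.filter fun c => tgt (fun j => vr (j, c)) L m (inst vr S u C' z) ≠ b').card
        ≤ exc D M s L m C.card := by
    intro z b' hz hb'
    have h1 : (C.filter fun c => tgt (fun j => vr (j, c)) L m (inst vr S u C' z) ≠ b')
        ⊆ (C.filter fun c => ¬ ∀ j ∈ levels m L, vr (j, c) ∉ S)
          ∪ (C'.filter fun c => lab (z c) L m ≠ b') := by
      intro c hc
      rw [Finset.mem_filter] at hc
      rw [Finset.mem_union, Finset.mem_filter, Finset.mem_filter]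
      by_cases h2 : ∀ j ∈ levels m L, vr (j, c) ∉ S
      · right
        have h3 : c ∈ C' := Finset.mem_filter.2 ⟨hc.1, h2⟩
        refine ⟨h3, ?_⟩
        rw [← tgt_inst hvr hC'N hz u hC'S h3]
        exact hc.2
      · exact Or.inl ⟨hc.1, h2⟩
    have h2 := (Finset.card_le_card h1).trans (Finset.card_union_le _ _)
    have h3 : C'.card / pp L m ≤ C.card / pp L m :=
      Nat.div_le_div_right (Finset.card_le_card hC'C)
    rw [exc]
    omega
  rcases hx : h (inst vr S u C' z0) with _ | _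
  · refine ⟨inst vr S u C' z1, true, by rw [← hsame, hx]; simp,
      hcount z1 true hz1 (le_trans (le_of_eq ?_) hb1)⟩
    congr 1
    refine Finset.filter_congr fun c hc => ?_
    simp
  · refine ⟨inst vr S u C' z0, false, by rw [hx]; simp,
      hcount z0 false hz0 (le_trans (le_of_eq ?_) hb0)⟩
    congr 1
    refine Finset.filter_congr fun c hc => ?_
    simp

end Pool.Agent.helper18.DQ
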