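import Mathlib

/-!
# Shapley-Folkman for weights

Weights `lam i l ≥ 0` with `∑ l, lam i l = 1` for every `i`; `f i l` are vectors with `D`
coordinates. The weights can be changed, without changing `∑ i, ∑ l, lam i l * f i l`, so that all
but at most `D` of the `i` have a single index `l` with nonzero weight.
-/

namespace Pool.Agent.helper18.DQ

open Finset

/-- movement of nonnegative weights along `d` until one of them vanishes -/
theorem move {κ : Type*} [Fintype κ] [DecidableEq κ] (lam d : κ → ℝ) (h0 : ∀ x, 0 ≤ lam x)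
    (hd : ∀ x, d x ≠ 0 → 0 < lam x) (hneg : ∃ x, d x < 0) :
    ∃ τ : ℝ, (∀ x, 0 ≤ lam x + τ * d x) ∧
      (univ.filter fun x => lam x + τ * d x ≠ 0).card < (univ.filter fun x => lam x ≠ 0).card := by
  classical
  obtain ⟨x0, hx0⟩ := hneg
  obtain ⟨x1, hx1, hmin⟩ := Finset.exists_min_image (univ.filter fun x => d x < 0)
    (fun x => lam x / (-d x)) ⟨x0, by simp [hx0]⟩
  have hx1' : d x1 < 0 := (Finset.mem_filter.1 hx1).2
  have hl1 : 0 < lam x1 := hd x1 hx1'.ne
  refine ⟨lam x1 / (-d x1), fun x => ?_, ?_⟩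
  · rcases lt_or_ge (d x) 0 with h | h
    · have h2 := hmin x (by simp [h])
      have h3 : lam x1 / (-d x1) * (-d x) ≤ lam x := by
        rwa [← le_div_iff₀ (by linarith)]
      linarith
    · have h4 : 0 ≤ lam x1 / (-d x1) := div_nonneg hl1.le (by linarith)
      have := mul_nonneg h4 h
      linarith [h0 x]
  · refine Finset.card_lt_card (Finset.ssubset_iff_subset_ne.2 ⟨fun x hx => ?_, fun he => ?_⟩)
    · rw [Finset.mem_filter] at hx ⊢
      refine ⟨Finset.mem_univ _, fun h => hx.2 ?_⟩
      have h5 : d x = 0 := by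
        by_contra h6
        exact absurd h (hd x h6).ne'
      rw [h, h5]
      ring
    · have h7 : x1 ∈ univ.filter (fun x => lam x ≠ 0) := by simp [hl1.ne']
      rw [← he, Finset.mem_filter] at h7
      apply h7.2
      have h8 : d x1 ≠ 0 := hx1'.ne
      rw [div_neg, neg_mul, div_mul_cancel₀ _ h8, add_neg_cancel]

/-- **Shapley-Folkman** -/
theorem shapleyFolkman {ι β : Type*} [Fintype ι] [Fintype β] [DecidableEq ι] [DecidableEq β]
    {D : ℕ} (f : ι → β → Fin D → ℝ) (lam : ι × β → ℝ) (h0 : ∀ x, 0 ≤ lam x)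
    (h1 : ∀ i, ∑ l, lam (i, l) = 1) :
    ∃ mu : ι × β → ℝ, (∀ x, 0 ≤ mu x) ∧ (∀ i, ∑ l, mu (i, l) = 1) ∧
      (∀ k, ∑ i, ∑ l, mu (i, l) * f i l k = ∑ i, ∑ l, lam (i, l) * f i l k) ∧
      (univ.filter fun i : ι => ¬ ∃ l, ∀ l', l' ≠ l → mu (i, l') = 0).card ≤ D := by
  classical
  -- strong induction on the size of the support
  induction hn : (univ.filter fun x => lam x ≠ 0).card using Nat.strong_induction_on
    generalizing lam with
  | _ n ih =>
  by_cases hD : (univ.filter fun i : ι => ¬ ∃ l, ∀ l', l' ≠ l → lam (i, l') = 0).card ≤ D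
  · exact ⟨lam, h0, h1, fun k => rfl, hD⟩
  rw [not_le] at hD
  set S := univ.filter fun i : ι => ¬ ∃ l, ∀ l', l' ≠ l → lam (i, l') = 0 with hS
  -- two indices with nonzero weight
  have h2 : ∀ i : ι, ∃ p : β × β, i ∈ S → p.1 ≠ p.2 ∧ lam (i, p.1) ≠ 0 ∧ lam (i, p.2) ≠ 0 := by
    intro i
    by_cases hi : i ∈ S
    · have h3 : ¬ ∃ l, ∀ l', l' ≠ l → lam (i, l') = 0 := (Finset.mem_filter.1 hi).2
      have h4 : ∃ l, lam (i, l) ≠ 0 := by
        by_contra h5
        push Not at h5
        have := h1 i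
        rw [Finset.sum_eq_zero fun l _ => h5 l] at this
        exact zero_ne_one this
      obtain ⟨l, hl⟩ := h4
      have h6 : ¬ ∀ l', l' ≠ l → lam (i, l') = 0 := fun h => h3 ⟨l, h⟩
      push Not at h6
      obtain ⟨l', hl', hl''⟩ := h6
      exact ⟨(l, l'), fun _ => ⟨hl'.symm, hl, hl''⟩⟩
    · rcases isEmpty_or_nonempty β with hβ | hβ
      · have := h1 i
        rw [Fintype.sum_empty] at this
        exact absurd this zero_ne_one
      · exact ⟨(Classical.arbitrary β, Classical.arbitrary β), fun h => absurd h hi⟩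
  choose p hp using h2
  -- linear dependence
  have h3 : ¬ LinearIndependent ℝ (fun i : S => fun k => f i.1 (p i.1).1 k - f i.1 (p i.1).2 k) := by
    intro h
    have := h.fintype_card_le_finrank
    rw [Fintype.card_coe, Module.finrank_fin_fun] at this
    omega
  rw [Fintype.not_linearIndependent_iff] at h3
  obtain ⟨t, ht, i0, hi0⟩ := h3
  -- the direction
  set d : ι × β → ℝ := fun x => if hx : x.1 ∈ S then
    t ⟨x.1, hx⟩ * ((if x.2 = (p x.1).1 then 1 else 0) - (if x.2 = (p x.1).2 then 1 else 0))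
    else 0 with hd
  have hdsum : ∀ i, ∑ l, d (i, l) = 0 := by
    intro i
    by_cases hi : i ∈ S
    · have h4 : ∀ l, d (i, l) = t ⟨i, hi⟩ *
          ((if l = (p i).1 then 1 else 0) - (if l = (p i).2 then 1 else 0)) := by
        intro l
        simp only [hd, hi, dif_pos]
      simp only [h4, ← Finset.mul_sum, Finset.sum_sub_distrib, Finset.sum_ite_eq',
        Finset.mem_univ, if_true, sub_self, mul_zero]
    · refine Finset.sum_eq_zero fun l _ => ?_
      simp only [hd, hi, dif_neg, not_false_eq_true]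
  have hdf : ∀ k, ∑ i, ∑ l, d (i, l) * f i l k = 0 := by
    intro k
    have h4 : ∀ i, ∑ l, d (i, l) * f i l k
        = if hi : i ∈ S then t ⟨i, hi⟩ * (f i (p i).1 k - f i (p i).2 k) else 0 := by
      intro i
      by_cases hi : i ∈ S
      · rw [dif_pos hi]
        have h5 : ∀ l, d (i, l) * f i l k = t ⟨i, hi⟩ *
            ((if l = (p i).1 then f i l k else 0) - (if l = (p i).2 then f i l k else 0)) := by
          intro l
          simp only [hd, hi, dif_pos]
          split_ifs <;> ring
        simp only [h5, ← Finset.mul_sum, Finset.sum_sub_distrib, Finset.sum_ite_eq',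
          Finset.mem_univ, if_true]
      · rw [dif_neg hi]
        refine Finset.sum_eq_zero fun l _ => ?_
        simp only [hd, hi, dif_neg, not_false_eq_true, zero_mul]
    simp only [h4]
    have h6 := congrFun ht k
    simp only [Finset.sum_apply, Pi.smul_apply, smul_eq_mul, Pi.zero_apply] at h6
    have h8 := Finset.sum_subset (Finset.subset_univ S) (f := fun i => if hi : i ∈ S then
      t ⟨i, hi⟩ * (f i (p i).1 k - f i (p i).2 k) else 0) (fun i _ hi => dif_neg hi)
    rw [← h8, ← Finset.sum_coe_sort S]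
    refine Eq.trans (Finset.sum_congr rfl fun i _ => ?_) h6
    rw [dif_pos i.2]
  have hneg : ∃ x, d x < 0 := by
    by_contra h
    push Not at h
    have h4 : ∀ l, d (i0.1, l) = 0 := by
      intro l
      have := (Finset.sum_eq_zero_iff_of_nonneg (fun l _ => h (i0.1, l))).1 (hdsum i0.1) l
        (Finset.mem_univ l)
      exact this
    have h5 := h4 (p i0.1).1
    simp only [hd, i0.2, dif_pos, if_true, if_neg (hp i0.1 i0.2).1, sub_zero, mul_one] at h5
    exact hi0 h5
  have hdpos : ∀ x, d x ≠ 0 → 0 < lam x := by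
    rintro ⟨i, l⟩ hx
    by_cases hi : i ∈ S
    · have h4 := hp i hi
      simp only [hd, hi, dif_pos] at hx
      refine lt_of_le_of_ne (h0 _) (Ne.symm ?_)
      by_cases h5 : l = (p i).1
      · rw [h5]; exact h4.2.1
      · by_cases h6 : l = (p i).2
        · rw [h6]; exact h4.2.2
        · rw [if_neg h5, if_neg h6] at hx
          simp at hx
    · simp only [hd, hi, dif_neg, not_false_eq_true] at hx
      exact absurd rfl hx
  obtain ⟨τ, hτ0, hτ⟩ := move lam d h0 hdpos hneg
  obtain ⟨mu, hm0, hm1, hm2, hm3⟩ := ih _ (hn ▸ hτ) (fun x => lam x + τ * d x) hτ0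
    (fun i => by rw [Finset.sum_add_distrib, h1, ← Finset.mul_sum, hdsum]; ring) rfl
  refine ⟨mu, hm0, hm1, fun k => ?_, hm3⟩
  rw [hm2 k]
  have h7 : ∀ i l, (lam (i, l) + τ * d (i, l)) * f i l k
      = lam (i, l) * f i l k + τ * (d (i, l) * f i l k) := fun i l => by ring
  simp only [h7, Finset.sum_add_distrib, ← Finset.mul_sum, hdf k, mul_zero, add_zero]

end Pool.Agent.helper18.DQ
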